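import Pool.Agent.N424.JB.Loc
import Pool.Agent.Run7.h286.PL.StmC

/-!
# K5: if `h(θ)` is locally the image of a point, the cocycle is locally a coboundary

The ideal `(u, y - v)`, `u ∣ v ^ 2 - f` monic and prime to `f`, is prime to the ramified points and has the norm `u`.
-/

set_option autoImplicit false
set_option linter.all false

open Polynomial IsDedekindDomain
open scoped Classical

namespace Run7.h803.K5

open Pool.Agent.Y160.SE Pool.Agent.N352.JB Pool.Agent.N424.JB Run7.h286.PLC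
open Pool.Agent.TH115.GD (incl rs ak exists_restrict)

section ideals

variable {E : Type} [Field E] {ζ : E} {f : E[X]}

theorem zeta_eq (hg : Good 2 ζ f) : ζ = -1 := hg.root.eq_neg_one_of_two_right

theorem two_ne (hg : Good 2 ζ f) : (2 : E) ≠ 0 := by
  intro h
  have h1 := hg.root.ne_one (by norm_num)
  apply h1
  rw [zeta_eq hg]
  linear_combination -h

theorem tw_xp (hg : Good 2 ζ f) (p : E[X]) : hg.tw (xp 2 f p) = xp 2 f p := by
  unfold Good.tw tw xp
  rw [AdjoinRoot.lift_of]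

theorem tw_yy (hg : Good 2 ζ f) : hg.tw (yy 2 f) = -yy 2 f := by
  unfold Good.tw tw yy
  rw [AdjoinRoot.lift_root, zeta_eq hg]
  unfold xp
  rw [map_neg, map_neg, C_1, map_one, neg_mul, one_mul]

theorem xp_two : xp 2 f 2 = 2 := map_ofNat _ 2

/-- the ideal `(u, y - v)` -/
noncomputable def uv (f u v : E[X]) : Ideal (CR 2 f) := Ideal.span {xp 2 f u, yy 2 f - xp 2 f v}

theorem cop_uv {u v : E[X]} (hc : IsCoprime u f) (hd : u ∣ v ^ 2 - f) : IsCoprime u v := by
  obtain ⟨w, hw⟩ := hd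
  have h1 : v ^ 2 = f + w * u := by rw [mul_comm w u, ← hw]; ring
  have h2 : IsCoprime u (v ^ 2) := by
    rw [h1]
    exact IsCoprime.add_mul_right_right hc w
  exact (IsCoprime.pow_right_iff (by norm_num)).1 h2

theorem uv_top {u v : E[X]} (hc : IsCoprime u f) (hd : u ∣ v ^ 2 - f) :
    uv f u v ⊔ Ideal.span {yy 2 f} = ⊤ := by
  obtain ⟨a, b, hab⟩ := cop_uv hc hd
  rw [Ideal.eq_top_iff_one]
  have h1 : xp 2 f u ∈ uv f u v := Ideal.subset_span (by simp)
  have h2 : yy 2 f - xp 2 f v ∈ uv f u v := Ideal.subset_span (by simp)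
  have h3 : yy 2 f ∈ Ideal.span {yy 2 f} := Ideal.subset_span (by simp)
  have h4 : (1 : CR 2 f) = (xp 2 f a * xp 2 f u - xp 2 f b * (yy 2 f - xp 2 f v)) + xp 2 f b * yy 2 f := by
    have h5 := congrArg (xp 2 f) hab
    rw [xp_add, xp_mul, xp_mul, xp_one] at h5
    rw [← h5]
    ring
  rw [h4]
  exact Submodule.add_mem_sup (Ideal.sub_mem _ (Ideal.mul_mem_left _ _ h1) (Ideal.mul_mem_left _ _ h2))
    (Ideal.mul_mem_left _ _ h3)

theorem uv_norm (hg : Good 2 ζ f) {u v : E[X]} (hc : IsCoprime u f) (hd : u ∣ v ^ 2 - f) :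
    ∏ i ∈ Finset.range 2, (uv f u v).map (hg.tw ^ i) = Ideal.span {xp 2 f u} := by
  obtain ⟨a, b, hab⟩ := cop_uv hc hd
  obtain ⟨w, hw⟩ := hd
  have e1 : (uv f u v).map ((hg.tw : CR 2 f →+* CR 2 f) ^ 0) = uv f u v := by
    rw [pow_zero]
    exact Ideal.map_id _
  have e2 : (uv f u v).map hg.tw = Ideal.span {xp 2 f u, -yy 2 f - xp 2 f v} := by
    unfold uv
    rw [Ideal.map_span, Set.image_pair, map_sub, tw_xp, tw_xp, tw_yy]
  rw [Finset.prod_range_succ, Finset.prod_range_one, e1, pow_one, e2]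
  unfold uv
  set U := xp 2 f u with hU
  set V := xp 2 f v with hV
  set Y := yy 2 f with hY
  have hYY : Y ^ 2 = xp 2 f f := yy_pow 2 f
  have hW : xp 2 f f = V ^ 2 - U * xp 2 f w := by
    have h5 := congrArg (xp 2 f) hw
    rw [xp_sub, xp_pow, xp_mul] at h5
    rw [← h5]; ring
  apply le_antisymm
  · rw [Ideal.span_pair_mul_span_pair, Ideal.span_le]
    have hUm : ∀ x, U * x ∈ Ideal.span {U} := fun x => Ideal.mem_span_singleton.2 (dvd_mul_right _ _)
    rintro x (rfl | rfl | rfl | rfl)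
    · exact hUm _
    · exact hUm _
    · rw [mul_comm]; exact hUm _
    · have : (Y - V) * (-Y - V) = U * xp 2 f w := by
        have h6 : (Y - V) * (-Y - V) = V ^ 2 - Y ^ 2 := by ring
        rw [h6, hYY, hW]; ring
      rw [this]
      exact hUm _
  · rw [Ideal.span_singleton_le_iff_mem]
    have m1 : U ∈ Ideal.span {U, Y - V} := Ideal.subset_span (by simp)
    have m2 : Y - V ∈ Ideal.span {U, Y - V} := Ideal.subset_span (by simp)
    have m3 : U ∈ Ideal.span {U, -Y - V} := Ideal.subset_span (by simp)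
    have m4 : -Y - V ∈ Ideal.span {U, -Y - V} := Ideal.subset_span (by simp)
    have n1 := Ideal.mul_mem_mul m1 m3
    have n2 := Ideal.mul_mem_mul m1 m4
    have n3 := Ideal.mul_mem_mul m2 m3
    have h2 : xp 2 f (C (2 : E)⁻¹) * 2 = 1 := by
      have h7 : (C (2 : E)⁻¹) * (2 : E[X]) = 1 := by
        have : (2 : E[X]) = C 2 := by rw [map_ofNat]
        rw [this, ← C_mul, inv_mul_cancel₀ (two_ne hg), C_1]
      have h8 := congrArg (xp 2 f) h7
      rw [xp_mul, xp_one, xp_two] at h8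
      exact h8
    have h5 := congrArg (xp 2 f) hab
    rw [xp_add, xp_mul, xp_mul, xp_one, ← hU, ← hV] at h5
    have h6 : U = xp 2 f a * (U * U) - xp 2 f b * xp 2 f (C (2 : E)⁻¹) * (U * (-Y - V) + (Y - V) * U) := by
      have h9 : xp 2 f a * (U * U) - xp 2 f b * xp 2 f (C (2 : E)⁻¹) * (U * (-Y - V) + (Y - V) * U) =
        xp 2 f a * (U * U) + xp 2 f b * (U * V) * (xp 2 f (C (2 : E)⁻¹) * 2) := by ring
      rw [h9, h2, mul_one]
      calc U = U * 1 := (mul_one _).symm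
        _ = U * (xp 2 f a * U + xp 2 f b * V) := by rw [h5]
        _ = _ := by ring
    have h10 := Ideal.sub_mem _ (Ideal.mul_mem_left _ (xp 2 f a) n1)
      (Ideal.mul_mem_left _ (xp 2 f b * xp 2 f (C (2 : E)⁻¹)) (Ideal.add_mem _ n2 n3))
    rw [← h6] at h10
    exact h10

theorem list_ideal (hg : Good 2 ζ f) (l : List (E[X] × E[X]))
    (hl : ∀ p ∈ l, p.1.Monic ∧ IsCoprime p.1 f ∧ p.1 ∣ p.2 ^ 2 - f) :
    ∃ I : Ideal (CR 2 f), I ⊔ Ideal.span {yy 2 f} = ⊤ ∧
      ∏ i ∈ Finset.range 2, I.map (hg.tw ^ i) = Ideal.span {xp 2 f (l.map Prod.fst).prod} ∧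
      IsCoprime (l.map Prod.fst).prod f := by
  induction l with
  | nil =>
    refine ⟨⊤, top_sup_eq _, ?_, ?_⟩
    · simp [Ideal.map_top]
    · rw [List.map_nil, List.prod_nil]; exact isCoprime_one_left
  | cons p l ih =>
    obtain ⟨I, h1, h2, h3⟩ := ih fun q hq => hl q (List.mem_cons_of_mem _ hq)
    obtain ⟨-, hc, hd⟩ := hl p List.mem_cons_self
    refine ⟨uv f p.1 p.2 * I, ?_, ?_, ?_⟩
    · rw [← Ideal.isCoprime_iff_sup_eq] at h1 ⊢
      exact IsCoprime.mul_left (Ideal.isCoprime_iff_sup_eq.2 (uv_top hc hd)) h1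
    · have e : ∀ i ∈ Finset.range 2, (uv f p.1 p.2 * I).map ((hg.tw : CR 2 f →+* CR 2 f) ^ i) =
          (uv f p.1 p.2).map ((hg.tw : CR 2 f →+* CR 2 f) ^ i) * I.map ((hg.tw : CR 2 f →+* CR 2 f) ^ i) :=
        fun i _ => Ideal.map_mul _ _ _
      rw [Finset.prod_congr rfl e, Finset.prod_mul_distrib, uv_norm hg hc hd, h2,
        Ideal.span_singleton_mul_span_singleton, List.map_cons, List.prod_cons, xp_mul]
    · rw [List.map_cons, List.prod_cons]
      exact IsCoprime.mul_left hc h3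

end ideals

theorem list_sgn {E : Type} [Field E] (l : List (E[X] × E[X])) :
    ∃ m : ℕ, (l.map fun p => (-1) ^ p.1.natDegree * p.1).prod = (-1) ^ m * (l.map Prod.fst).prod := by
  induction l with
  | nil => exact ⟨0, by simp⟩
  | cons p l ih =>
    obtain ⟨m, hm⟩ := ih
    refine ⟨p.1.natDegree + m, ?_⟩
    rw [List.map_cons, List.prod_cons, List.map_cons, List.prod_cons, hm, pow_add]
    ring

/-- **K5** -/
theorem T_K5 (hLPN : S_LPN) (hDBL : S_DBL) : P_K5 := by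
  intro K Ω E Ω' _ _ _ _ _ _ _ _ _ _ _ _ _ f hg hodd c hc2 h b hsq hk hloc ι
  have H := hyps
  obtain ⟨l, s, hl, hls⟩ := hloc
  have hgE := hg.up E
  have hfE : f.map (algebraMap K E) ≠ 0 := hgE.monic.ne_zero
  have hsE : ((f.map (algebraMap K E)).map (algebraMap E Ω')).Splits := by
    rw [map_L]
    exact splits_up hg
  have hoddE : Odd (f.map (algebraMap K E)).natDegree := by
    rw [natDegree_map]
    exact hodd
  obtain ⟨I, hI1, hI2, hI3⟩ := list_ideal hgE l hl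
  have hIne : I ≠ ⊥ := by
    rintro rfl
    have h3 : (∏ i ∈ Finset.range 2, (⊥ : Ideal (CR 2 (f.map (algebraMap K E)))).map
        ((hgE.tw : CR 2 _ →+* CR 2 _) ^ i)) = ⊥ := by
      rw [Finset.prod_range_succ, Ideal.map_bot, Ideal.mul_bot]
    rw [h3] at hI2
    have h4 := (Ideal.span_singleton_eq_bot.1 hI2.symm)
    have h5 : (l.map Prod.fst).prod = 0 := by
      apply xp_inj (ℓ := 2) (f := f.map (algebraMap K E)) (by norm_num)
      rw [h4, xp_zero]
    rw [h5, isCoprime_zero_left] at hI3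
    have h6 := natDegree_eq_zero_of_isUnit hI3
    rw [h6] at hoddE
    exact (by decide : ¬ Odd 0) hoddE
  obtain ⟨Q, hQ⟩ := cl_exists H hg hIne
  obtain ⟨hd1, hd2, hd3⟩ := hDBL K Ω' f hg
  obtain ⟨P, hP⟩ := hd3 (jm 2 f (incl K E Ω') Q)
  have hP' : pe hg Ω' (1 - X) P = jm 2 f (incl K E Ω') Q := by rw [hd2, hP]
  have hQfix : ∀ τ : Ω' ≃ₐ[E] Ω', jm 2 f (rs K τ) (jm 2 f (incl K E Ω') Q) =
      jm 2 f (incl K E Ω') Q := by
    intro τ
    rw [jm_jm]
    congr 1
    congr 1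
    exact AlgHom.ext fun y => τ.commutes y
  have hT : ∀ τ : Ω' ≃ₐ[E] Ω', Tor hg (jm 2 f (rs K τ) P - P) := by
    intro τ
    rw [hd1, smul_sub, ← map_nsmul, hP, hQfix, sub_self]
  obtain ⟨t, ht1, ht2⟩ := kcJ H hg hQ hI1 hI3 hI2 hP'
  obtain ⟨m, hm⟩ := list_sgn l
  obtain ⟨M, hM⟩ : ∃ M : E[X], M = (l.map fun p => (-1) ^ p.1.natDegree * p.1).prod := ⟨_, rfl⟩
  obtain ⟨G, hG⟩ : ∃ G : E[X], G = (l.map Prod.fst).prod := ⟨_, rfl⟩
  rw [← hM, ← hG] at hm
  rw [← hG] at ht1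
  rw [← hM] at hls
  have hMG : ∀ β : Ω', aeval β M = (-1) ^ m * aeval β G := by
    intro β
    rw [hm, map_mul, map_pow, map_neg, map_one]
  obtain ⟨y, hy⟩ := hLPN E Ω' (f.map (algebraMap K E)) hgE.monic hoddE hsE
    ((l.map Prod.fst : List E[X]) : Multiset E[X]) (by
      intro p hp
      rw [Multiset.mem_coe, List.mem_map] at hp
      obtain ⟨q, hq, rfl⟩ := hp
      obtain ⟨q1, q2, q3⟩ := hl q hq
      refine ⟨q1, q.2, ?_⟩
      rw [← neg_sub, dvd_neg]
      exact q3)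
  have eM : (((l.map Prod.fst : List E[X]) : Multiset E[X]).map fun p => (-1) ^ p.natDegree * p).prod = M := by
    rw [hM, Multiset.map_coe, Multiset.prod_coe, List.map_map]
    rfl
  rw [eM, map_L] at hy
  -- the product of the values of `G`
  obtain ⟨Pg, hPg⟩ : ∃ Pg : Ω', Pg = ((f.map (algebraMap K Ω')).roots.map fun β' => aeval β' G).prod :=
    ⟨_, rfl⟩
  have hcard : (f.map (algebraMap K Ω')).roots.card = f.natDegree := by
    rw [← (splits_up hg (Ω := Ω')).natDegree_eq_card_roots, natDegree_map]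
  have hyP : algebraMap E Ω' y ^ 2 = ((-1) ^ m) ^ f.natDegree * Pg := by
    rw [← map_pow, ← hy, hPg, ← hcard, ← Multiset.prod_replicate, ← Multiset.map_const', ← Multiset.prod_map_mul]
    congr 1
    apply Multiset.map_congr rfl
    intro β _
    exact hMG β
  have hPg0 : Pg ≠ 0 := by
    have := prod_roots_ne (Ω := Ω') hfE (G := G) (fun e he => by
      rw [rt_up] at he
      exact (ht1 e he).2.1)
    rw [map_L] at this
    rw [hPg]
    exact this
  obtain ⟨k, hk2⟩ := hodd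
  have hsg : ((-1 : Ω') ^ m) ^ 2 = 1 := by rw [← pow_mul, mul_comm, pow_mul, neg_one_sq, one_pow]
  have hsg0 : ((-1 : Ω') ^ m) ≠ 0 := pow_ne_zero _ (neg_ne_zero.2 one_ne_zero)
  obtain ⟨Y, hYd⟩ : ∃ Y : Ω', Y = algebraMap E Ω' y := ⟨_, rfl⟩
  rw [← hYd] at hyP
  have hY0 : Y ≠ 0 := by
    intro h0
    rw [h0, zero_pow two_ne_zero] at hyP
    exact mul_ne_zero (pow_ne_zero _ hsg0) hPg0 hyP.symm
  -- every root comes from `Ω`
  have hroot : ∀ e' : Ω', Rt f e' → ∃ e : Ω, Rt f e ∧ ι e = e' := by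
    intro e' he'
    have hsp : (f.map (algebraMap K Ω)).Splits := splits_up hg
    have hm : (f.map (algebraMap K Ω')).roots = (f.map (algebraMap K Ω)).roots.map ι := by
      rw [← map_alg ι, hsp.roots_map]
      rfl
    have h3 : e' ∈ (f.map (algebraMap K Ω')).roots := (rt_mem hg.monic.ne_zero e').1 he'
    rw [hm, Multiset.mem_map] at h3
    obtain ⟨e, he, hee⟩ := h3
    exact ⟨e, (rt_mem hg.monic.ne_zero e).2 he, hee⟩
  choose! inv hinv1 hinv2 using hroot
  have hhval : ∀ β : Ω', Rt f β → aeval β (h.map (algebraMap K E)) = ι (b (inv β)) ^ 2 := by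
    intro e he'
    rw [aeval_map_algebraMap, ← map_pow, (hk.val (inv e) (hinv1 e he')).2, ← aeval_algHom_apply,
      hinv2 e he']
  have hb0 : ∀ β : Ω', Rt f β → ι (b (inv β)) ≠ 0 := by
    intro β hβ h0
    exact (hk.val (inv β) (hinv1 β hβ)).1 ((_root_.map_eq_zero ι).1 h0)
  have hM0 : ∀ β : Ω', Rt f β → aeval β M ≠ 0 := by
    intro β hβ
    rw [hMG]
    exact mul_ne_zero hsg0 (ht1 β hβ).2.1
  have hs2 : ∀ β : Ω', Rt f β → ι (b (inv β)) ^ 2 * aeval β M = aeval β s ^ 2 := by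
    intro β hβ
    have h1 : aeval β (h.map (algebraMap K E) * M - s ^ 2) = 0 := by
      obtain ⟨q, hq⟩ := hls
      rw [hq, map_mul]
      have h2 : Rt (f.map (algebraMap K E)) β := (rt_up f β).2 hβ
      have h3 : aeval β (f.map (algebraMap K E)) = 0 := h2
      rw [h3, zero_mul]
    rw [map_sub, map_mul, map_pow, hhval β hβ, sub_eq_zero] at h1
    exact h1
  have hs0 : ∀ β : Ω', Rt f β → aeval β s ≠ 0 := by
    intro β hβ h0
    have h1 := hs2 β hβ
    rw [h0, zero_pow two_ne_zero] at h1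
    exact mul_ne_zero (pow_ne_zero 2 (hb0 β hβ)) (hM0 β hβ) h1
  have ht3 : ∀ β : Ω', Rt f β → t β ^ 2 * Y ^ 2 = aeval β M ^ (2 * k + 1) := by
    intro β hβ
    have h1 := (ht1 β hβ).2.2
    rw [← hPg, hk2] at h1
    rw [hyP, hk2, hMG, mul_pow, ← h1]
    ring
  -- the signs
  obtain ⟨ε, hε⟩ : ∃ ε : Ω' → Ω', ∀ β, ε β = ι (b (inv β)) * t β * Y / (aeval β s * aeval β M ^ k) :=
    ⟨_, fun β => rfl⟩
  have hε2 : ∀ β, Rt f β → ε β ^ 2 = 1 := by
    intro β hβ
    have n1 := hs0 β hβ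
    have n2 := hM0 β hβ
    rw [hε, div_pow, div_eq_one_iff_eq (pow_ne_zero 2 (mul_ne_zero n1 (pow_ne_zero k n2)))]
    calc (ι (b (inv β)) * t β * Y) ^ 2 = ι (b (inv β)) ^ 2 * (t β ^ 2 * Y ^ 2) := by ring
      _ = (ι (b (inv β)) ^ 2 * aeval β M) * (aeval β M ^ k) ^ 2 := by rw [ht3 β hβ]; ring
      _ = _ := by rw [hs2 β hβ]; ring
  have hpm : ∀ {x : Ω'}, x ^ 2 = 1 → x = 1 ∨ x = -1 := by
    intro x hx
    have h1 : (x - 1) * (x + 1) = 0 := by linear_combination hx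
    rcases mul_eq_zero.1 h1 with h2 | h2
    · exact Or.inl (sub_eq_zero.1 h2)
    · exact Or.inr (eq_neg_of_add_eq_zero_left h2)
  obtain ⟨Pr, hPr⟩ : ∃ Pr : Ω', Pr = ((f.map (algebraMap K Ω')).roots.map ε).prod := ⟨_, rfl⟩
  have hPr2 : Pr ^ 2 = 1 := by
    rw [hPr, ← Multiset.prod_map_pow]
    apply Multiset.prod_eq_one
    intro x hx
    obtain ⟨β, hβ, rfl⟩ := Multiset.mem_map.1 hx
    exact hε2 β ((rt_mem hg.monic.ne_zero β).2 hβ)
  obtain ⟨R, hR, hRchi⟩ := chi_surj H hg (z := fun β => Pr * ε β) (fun β hβ => by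
      rw [mul_pow, hPr2, hε2 β hβ, one_mul]) (by
      rw [Multiset.prod_map_mul, Multiset.map_const', Multiset.prod_replicate, hcard, ← hPr, hk2, ← pow_succ,
        show 2 * k + 1 + 1 = 2 * (k + 1) by ring, pow_mul, hPr2, one_pow])
  refine ⟨R - P, fun τ σ hτσ => ?_⟩
  have hcT : Tor hg (jm 2 f ι (c σ)) := (hc2 σ).map ι
  have hRT : Tor hg (jm 2 f (rs K τ) R - R) := (hR.map _).sub hR
  have key : jm 2 f (rs K τ) R - R = jm 2 f ι (c σ) + (jm 2 f (rs K τ) P - P) := by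
    refine chi_ext H hg hRT (hcT.add (hT τ)) fun β hβ => ?_
    obtain ⟨β₀, hβ₀⟩ : ∃ β₀ : Ω', β₀ = τ.symm β := ⟨_, rfl⟩
    have e0 : τ β₀ = β := by rw [hβ₀, AlgEquiv.apply_symm_apply]
    have hβ₀r : Rt f β₀ := by rw [hβ₀]; exact hβ.map (rs K τ.symm)
    have e1 : inv β = σ (inv β₀) := by
      apply ι.injective
      change ι (inv β) = ι (σ (inv β₀))
      rw [hinv2 _ hβ, ← hτσ, hinv2 _ hβ₀r, e0]
    have e2 : τ (ι (b (inv β₀))) = chi hg β (jm 2 f ι (c σ)) * ι (b (inv β)) := by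
      rw [hτσ, hk.gal σ (inv β₀) (hinv1 β₀ hβ₀r), map_mul, ← e1,
        ← chi_map H hg (hc2 _) (hinv1 _ hβ) ι, hinv2 _ hβ]
    have e3 := ht2 τ β₀ hβ₀r (hT τ)
    rw [e0] at e3
    have e4 : τ (aeval β₀ s) = aeval β s := by
      have := aeval_algHom_apply (τ : Ω' →ₐ[E] Ω') β₀ s
      rw [← e0]
      exact this.symm
    have e5 : τ (aeval β₀ M) = aeval β M := by
      have := aeval_algHom_apply (τ : Ω' →ₐ[E] Ω') β₀ M
      rw [← e0]
      exact this.symm
    have e6 : τ Y = Y := by rw [hYd]; exact τ.commutes y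
    have e7 : τ (ε β₀) = chi hg β (jm 2 f ι (c σ)) * chi hg β (jm 2 f (rs K τ) P - P) * ε β := by
      rw [hε, hε, map_div₀, map_mul, map_mul, map_mul, map_pow, e2, e3, e4, e5, e6]
      ring
    have e8 : τ (ε β₀) = ε β₀ := by
      rcases hpm (hε2 β₀ hβ₀r) with h1 | h1
      · rw [h1, map_one]
      · rw [h1, map_neg, map_one]
    rw [chi_sub H hg (hR.map _) hR hβ, chi_add H hg hcT (hT τ) hβ, hRchi β hβ]
    have e9 := chi_map H hg hR hβ₀r (rs K τ)
    rw [chi_fix' H hg hR hβ₀r, hRchi β₀ hβ₀r] at e9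
    have e10 : (rs K τ) β₀ = β := e0
    rw [e10] at e9
    rw [e9]
    have n1 : Pr ≠ 0 := by
      intro h0
      rw [h0, zero_pow two_ne_zero] at hPr2
      exact zero_ne_one hPr2
    have n2 : ε β ≠ 0 := by
      intro h0
      have := hε2 β hβ
      rw [h0, zero_pow two_ne_zero] at this
      exact zero_ne_one this
    rw [← e8, e7]
    field_simp
  have k2 : jm 2 f ι (c σ) = jm 2 f (rs K τ) R - R - (jm 2 f (rs K τ) P - P) := by rw [key]; abel
  rw [k2, map_sub]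
  abel

end Run7.h803.K5
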